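import Mathlib
import Pool.Agent.TH776.FS.Defs

/-!
# Weil numbers for which few slopes, or few differences of slopes, are prime to `r`: definitions
-/

namespace Pool.Agent.TH776.FM

open NumberField Module Pool.Agent.H204R3.CM Pool.Agent.W527.TateRing Pool.Agent.TH776.FS

variable {p m : ℕ} [Fact p.Prime]

/-- The deviation `2 v(τ π) - m` of the slope at the embedding `τ` from the middle slope; `v` is the
valuation with `v(p) = 1`. -/
noncomputable def dev (W : WeilNumber p m) (τ : W.K →+* PadicAlgCl p) : ℝ :=
  2 * (- Real.logb p ‖τ W.π‖) - m

/-- `v` is an integral valued combination, with real coefficients, of the deviations and of one of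
their conjugates: of the functions `τ ↦ dev τ` and `τ ↦ dev (σ τ)`, `σ` an automorphism of the
algebraic closure of `ℚ_p` (as a field; it is not supposed to be continuous). -/
def IsPencil (W : WeilNumber p m) (v : (W.K →+* PadicAlgCl p) → ℤ) : Prop :=
  ∃ (σ : PadicAlgCl p ≃+* PadicAlgCl p) (a b : ℝ), ∀ τ : W.K →+* PadicAlgCl p,
    (v τ : ℝ) = a * dev W τ + b * dev W ((σ : PadicAlgCl p →+* PadicAlgCl p).comp τ)

/-- The values of some such function that are not divisible by `r` are exactly those at the pairs of
conjugate embeddings of `x` and of `y`. -/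
def Linked (W : WeilNumber p m) (r : ℕ) (x y : W.K →+* PadicAlgCl p) : Prop :=
  ∃ v : (W.K →+* PadicAlgCl p) → ℤ, IsPencil W v ∧ ∀ τ, ¬ (r : ℤ) ∣ v τ ↔ InPairs x y τ

/-- For some prime number `r` there is a pair linked to itself (that is, some `v` as above has only
one pair of values prime to `r`), or only the rational numbers are elements of the maximal real
subfield on which all linked embeddings agree. -/
def FewValues (W : WeilNumber p m) : Prop :=
  ∃ r : ℕ, r.Prime ∧ ((∃ x, Linked W r x x) ∨
    ∀ t : W.K, IsCMField.complexConj W.K t = t → (∀ x y, Linked W r x y → x t = y t) →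
      ∃ q : ℚ, t = q)

/-- The even values of some function as above are those at one pair of embeddings, or at two pairs
whose embeddings agree on no element of the maximal real subfield except the rational numbers; in the
latter case, if the degree of `K` is four modulo eight, `K` has no real quadratic subfield. -/
def FewEvenValues (W : WeilNumber p m) : Prop :=
  ∃ (v : (W.K →+* PadicAlgCl p) → ℤ) (x y : W.K →+* PadicAlgCl p), IsPencil W v ∧
    (∀ τ, Even (v τ) ↔ InPairs x y τ) ∧
    (x = y ∨ OnlyRat x y ∧ (finrank ℚ W.K % 8 = 4 →
      ∀ F : IntermediateField ℚ W.K, finrank ℚ F = 2 → IsCM F))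

end Pool.Agent.TH776.FM
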