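import Mathlib
import Pool.Agent.H204R3.GP.Defs
import Pool.Agent.TH776.FM.Defs

/-!
# Tate modules, and the slopes `0`, `a / 2`, `a`: definitions
-/

namespace Pool.Agent.TH776.FM

open NumberField Module Pool.Agent.H204R3.CM Pool.Agent.H204R3.GP Pool.Agent.W527.TateRing
  Pool.Agent.TH776.FS

/-- Properties of the rational Tate module of an abelian variety, with the action `ρ` of the Galois
group, the cyclotomic character `χ` and the Weil pairing `ω` of a polarization: `ω` is alternating,
nondegenerate and multiplied by `χ` under `ρ`, and the representation is semisimple under all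
subgroups of finite index (theorem of Faltings). -/
structure IsTateModule {k V Γ : Type} [Field k] [AddCommGroup V] [Module k V] [Group Γ]
    (ρ : Representation k Γ V) (χ : Γ →* k) (ω : V →ₗ[k] V →ₗ[k] k) : Prop where
  alt : ∀ v, ω v v = 0
  nondeg : ∀ u, (∀ v, ω v u = 0) → u = 0
  similitude : ∀ s u v, ω (ρ s u) (ρ s v) = χ s * ω u v
  semisimple : FiniteIndexSemisimple ρ

/-- The slopes are `0`, `a / 2`, `a`, the middle slope occurs exactly at the pair of `x` or at the
pairs of `x` and `y`, whose embeddings then agree on no element of the maximal real subfield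
except the rational numbers (and `K` has no real quadratic subfield if its degree is four modulo
eight), and the number of the other pairs is odd. -/
def MiddleAt {p a : ℕ} [Fact p.Prime] (W : WeilNumber p a) (x y : W.K →+* PadicAlgCl p) : Prop :=
  (∀ τ, InPairs x y τ → ‖τ W.π‖ ^ 2 = ((p : ℝ) ^ a)⁻¹) ∧
  (∀ τ, ¬ InPairs x y τ → ‖τ W.π‖ = 1 ∨ ‖τ W.π‖ = ((p : ℝ) ^ a)⁻¹) ∧
  (x = y ∨ OnlyRat x y ∧ (finrank ℚ W.K % 8 = 4 →
    ∀ F : IntermediateField ℚ W.K, finrank ℚ F = 2 → IsCM F)) ∧
  Nat.card {τ // ¬ InPairs x y τ} % 4 = 2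

end Pool.Agent.TH776.FM
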