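import Mathlib
import Pool.Agent.H204R3.GP.Defs
import Pool.Agent.W516.MT.Defs
import Pool.Agent.TH776.FM.Defs

/-!
# Abelian varieties with their Hodge structure and Tate module, and the slopes `0`, `a / 2`, `a`:
definitions
-/

namespace Pool.Agent.TH776.FM

open NumberField Module TensorProduct Pool.Agent.H204R3.CM Pool.Agent.H204R3.GP
  Pool.Agent.W516.MTD Pool.Agent.W527.TateRing Pool.Agent.TH776.FS

/-- The data of an abelian variety `A` over a finitely generated subfield of the complex numbers:
`H` is the rational homology `H_1(A(ℂ), ℚ)`, `T` the tangent space at the origin, `per` the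
inclusion of `H` in `T`, `ω₀` the form given by a polarization, `k ⊗ H` (`k = ℚ_ℓ`) the rational Tate
module with the action `ρ` of the Galois group `Γ`, `χ` the cyclotomic character and `ω` the Weil
pairing. The last four properties are the theorems of Faltings, the theorem of Deligne (Hodge
classes are Tate classes) and the theorem on centres (the conjecture of Mumford and Tate holds for the
centres; Vasiu, Ullmo and Yafaev), in the form of an earlier file (`Pool.Agent.W516.MT.Defs`). -/
structure IsAbelianVariety {k H T Γ : Type} [Field k] [CharZero k] [AddCommGroup H] [Module ℚ H]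
    [AddCommGroup T] [Module ℂ T] [Group Γ] (per : H →+ T) (ω₀ : H →ₗ[ℚ] H →ₗ[ℚ] ℚ)
    (ρ : Representation k Γ (k ⊗[ℚ] H)) (χ : Γ →* k)
    (ω : k ⊗[ℚ] H →ₗ[k] k ⊗[ℚ] H →ₗ[k] k) : Prop where
  rational : IsRationalStructure per
  hodge : IsHodgeBilinear per ω₀
  compatible : ∀ u v : H, ω ((1 : k) ⊗ₜ[ℚ] u) ((1 : k) ⊗ₜ[ℚ] v) = ((ω₀ u v : ℚ) : k)
  alt : ∀ v, ω v v = 0
  nondeg : ∀ u, (∀ v, ω u v = 0) → u = 0
  similitude : ∀ s u v, ω (ρ s u) (ρ s v) = χ s * ω u v
  semisimple : FiniteIndexSemisimple ρ
  faltings : Faltings per ρ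
  deligne : Deligne per ρ χ
  centres : Centres per ρ χ

/-- The slopes are `0`, `a / 2`, `a`, the middle slope occurs exactly at the pair of `x` or at the
pairs of `x` and `y`, whose embeddings then agree on no element of the maximal real subfield
except the rational numbers (and `K` has no real quadratic subfield if its degree is four modulo
eight). -/
def MiddleSlopes {p a : ℕ} [Fact p.Prime] (X : WeilNumber p a) (x y : X.K →+* PadicAlgCl p) :
    Prop :=
  (∀ τ, InPairs x y τ → ‖τ X.π‖ ^ 2 = ((p : ℝ) ^ a)⁻¹) ∧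
  (∀ τ, ¬ InPairs x y τ → ‖τ X.π‖ = 1 ∨ ‖τ X.π‖ = ((p : ℝ) ^ a)⁻¹) ∧
  (x = y ∨ OnlyRat x y ∧ (finrank ℚ X.K % 8 = 4 →
    ∀ F : IntermediateField ℚ X.K, finrank ℚ F = 2 → IsCM F))

end Pool.Agent.TH776.FM
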