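import Pool.Agent.TH776.FS.Main
import Pool.Agent.TH776.FM.Defs

/-!
# Weil numbers for which few slopes, or few differences of slopes, are prime to `r`
-/

set_option linter.unusedSectionVars false
set_option linter.unusedVariables false

namespace Pool.Agent.TH776.FM

open NumberField Module Equiv Pool.Agent.H204R3.CM Pool.Agent.H977R3.WN Pool.Agent.W527
  Pool.Agent.W527.Dec Pool.Agent.W527.TateRing Pool.Agent.H485R3.Exact Pool.Agent.TH776.FS

noncomputable section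

section links

variable {K L : Type} [Field K] [NumberField K] [IsCMField K] [Field L] [NumberField L]
  [IsGalois ℚ L]

/-- Values of relations at the translates of `x` and `y` are divisible by `r` simultaneously. -/
def Lk (w : (K →+* L) → ℤ) (r : ℕ) (x y : K →+* L) : Prop :=
  ∀ f, IsRel w f → ∀ g : L ≃ₐ[ℚ] L, (r : ℤ) ∣ f (g • x) ↔ (r : ℤ) ∣ f (g • y)

theorem conn_links {κ : L ≃ₐ[ℚ] L} (hκ : ∀ φ : K →+* L, κ • φ = cbar φ)
    (S : (K →+* L) → (K →+* L) → Prop)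
    (hS : ∀ t : K, IsCMField.complexConj K t = t → (∀ x y, S x y → x t = y t) → ∃ q : ℚ, t = q)
    (P : (K →+* L) → Prop) (hP : ∀ φ, P (cbar φ) ↔ P φ)
    (hg : ∀ x y, S x y → ∀ g : L ≃ₐ[ℚ] L, P (g • x) ↔ P (g • y)) (φ φ' : K →+* L) :
    P φ ↔ P φ' := by
  obtain ⟨F, P', hP', hmin⟩ := exists_factor φ P
  have hreal : ∀ t ∈ F, IsCMField.complexConj K t = t := by
    intro t ht
    have h1 := hmin κ φ (fun g => by
      rw [hκ]
      have h2 : g • cbar φ = cbar (g • φ) := rfl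
      rw [h2]
      exact propext (hP _))
    rw [hκ] at h1
    have h2 := RingHom.congr_fun h1 ⟨t, ht⟩
    rw [res_apply, res_apply, cbar_apply] at h2
    exact φ.injective h2
  have hxyF : ∀ x y, S x y → ∀ t ∈ F, x t = y t := by
    intro x y hxy t ht
    obtain ⟨δ, hδ⟩ := MulAction.exists_smul_eq (L ≃ₐ[ℚ] L) x y
    have h1 := hmin δ x (fun g => by
      rw [hδ]
      exact (propext (hg x y hxy g)).symm)
    rw [hδ] at h1
    exact (RingHom.congr_fun h1 ⟨t, ht⟩).symm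
  have hres : res F φ = res F φ' := by
    ext t
    obtain ⟨q, hq⟩ := hS t (hreal t t.2) (fun x y hxy => hxyF x y hxy t t.2)
    rw [res_apply, res_apply, hq, map_ratCast, map_ratCast]
  rw [hP' φ, hP' φ', hres]

theorem prop_links {κ : L ≃ₐ[ℚ] L} (hκ : ∀ φ : K →+* L, κ • φ = cbar φ) {w : (K →+* L) → ℤ}
    {r : ℕ} (hr : r.Prime)
    (hS : ∀ t : K, IsCMField.complexConj K t = t → (∀ x y : K →+* L, Lk w r x y → x t = y t) →
      ∃ q : ℚ, t = q) : Prop_mod w r := by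
  intro c c' hc hc'
  have hrp : Prime (r : ℤ) := Nat.prime_iff_prime_int.1 hr
  by_cases hall : ∀ φ, (r : ℤ) ∣ c φ
  · refine ⟨1, 0, fun h => hrp.not_dvd_one h.1, fun φ => ?_⟩
    rw [one_mul, zero_mul, add_zero]
    exact hall φ
  · push Not at hall
    obtain ⟨φ₀, hφ₀⟩ := hall
    refine ⟨c' φ₀, - c φ₀, fun h => hφ₀ ((dvd_neg).1 h.2), fun φ => ?_⟩
    have hf := hc.lin hc' (c' φ₀) (- c φ₀)
    have h1 := conn_links hκ (Lk w r) hS
      (fun φ => (r : ℤ) ∣ c' φ₀ * c φ + (- c φ₀) * c' φ) (fun φ => ?_)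
      (fun x y hxy g => hxy _ hf g) φ φ₀
    · refine h1.2 ?_
      have h2 : c' φ₀ * c φ₀ + (- c φ₀) * c' φ₀ = 0 := by ring
      rw [h2]
      exact dvd_zero _
    · rw [hc.1, hc'.1]
      have h2 : c' φ₀ * - c φ + - c φ₀ * - c' φ = - (c' φ₀ * c φ + - c φ₀ * c' φ) := by ring
      rw [h2, dvd_neg]

theorem prop_zero {w : (K →+* L) → ℤ} {r : ℕ} (hr : r.Prime)
    (h : ∀ f, IsRel w f → ∀ φ, (r : ℤ) ∣ f φ) : Prop_mod w r := by
  have hrp : Prime (r : ℤ) := Nat.prime_iff_prime_int.1 hr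
  intro c c' hc hc'
  refine ⟨1, 0, fun h => hrp.not_dvd_one h.1, fun φ => ?_⟩
  rw [one_mul, zero_mul, add_zero]
  exact h c hc φ

open Classical in
/-- A function with one pair of values prime to `r`. -/
theorem dvd_of_single {v : (K →+* L) → ℤ} (hv : ∀ φ, v (cbar φ) = - v φ) {r : ℕ} (hr : r.Prime)
    {x : K →+* L} (hsup : ∀ φ, ¬ (r : ℤ) ∣ v φ → φ = x ∨ φ = cbar x) (hx : ¬ (r : ℤ) ∣ v x)
    {f : (K →+* L) → ℤ} (hf : IsRel v f) (g : L ≃ₐ[ℚ] L) : (r : ℤ) ∣ f (g • x) := by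
  have hrp : Prime (r : ℤ) := Nat.prime_iff_prime_int.1 hr
  obtain ⟨h1, h2⟩ := single_of (v := v) (z := x) hv hr hsup ⟨x, hx⟩
  have h3 := rel_two hv hr (a := v x) (b := 0) (x := x) (y := x) (fun φ => by
    have h3 : spike 0 x φ = 0 := by unfold spike; simp
    rw [h3, add_zero]
    exact h2 φ) hf g
  rw [zero_mul, add_zero] at h3
  exact (hrp.dvd_or_dvd h3).resolve_left h1

open Classical in
/-- A function whose values prime to `r` are those at two pairs. -/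
theorem lk_of_support {v : (K →+* L) → ℤ} (hv : ∀ φ, v (cbar φ) = - v φ) {r : ℕ} (hr : r.Prime)
    {x y : K →+* L} (hsup : ∀ φ, ¬ (r : ℤ) ∣ v φ ↔ InPairs x y φ) {f : (K →+* L) → ℤ}
    (hf : IsRel v f) (g : L ≃ₐ[ℚ] L) : (r : ℤ) ∣ f (g • x) ↔ (r : ℤ) ∣ f (g • y) := by
  have hrp : Prime (r : ℤ) := Nat.prime_iff_prime_int.1 hr
  by_cases hyx : y = x
  · rw [hyx]
  by_cases hyx' : y = cbar x
  · have h1 : g • y = cbar (g • x) := by rw [hyx']; rfl
    rw [h1, hf.1, dvd_neg]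
  have e1 : cbar y ≠ x := fun h => hyx' (by rw [← h, cbar_cbar])
  have e2 : cbar y ≠ cbar x := fun h => hyx (by rw [← cbar_cbar y, h, cbar_cbar])
  have hmod : ∀ φ, (r : ℤ) ∣ v φ - (spike (v x) x φ + spike (v y) y φ) := by
    intro φ
    unfold spike
    by_cases h2 : φ = x
    · rw [h2, if_pos rfl, if_neg (cbar_ne x).symm, if_neg (Ne.symm hyx), if_neg (Ne.symm e1)]
      simp
    by_cases h3 : φ = cbar x
    · rw [h3, if_neg (cbar_ne x), if_pos rfl, if_neg (Ne.symm hyx'), if_neg (Ne.symm e2), hv]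
      simp
    by_cases h4 : φ = y
    · rw [h4, if_neg hyx, if_neg hyx', if_pos rfl, if_neg (cbar_ne y).symm]
      simp
    by_cases h5 : φ = cbar y
    · rw [h5, if_neg e1, if_neg e2, if_neg (cbar_ne y), if_pos rfl, hv]
      simp
    rw [if_neg h2, if_neg h3, if_neg h4, if_neg h5]
    by_contra h6
    rw [sub_self, add_zero, sub_zero] at h6
    rcases (hsup φ).1 h6 with h | h | h | h
    · exact h2 h
    · exact h3 h
    · exact h4 h
    · exact h5 h
  have hx : ¬ (r : ℤ) ∣ v x := (hsup x).2 (Or.inl rfl)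
  have hy : ¬ (r : ℤ) ∣ v y := (hsup y).2 (Or.inr (Or.inr (Or.inl rfl)))
  have h2 := rel_two hv hr hmod hf g
  constructor
  · intro h3
    exact (hrp.dvd_or_dvd ((Int.dvd_add_right (h3.mul_left _)).1 h2)).resolve_left hy
  · intro h3
    exact (hrp.dvd_or_dvd ((Int.dvd_add_left (h3.mul_left _)).1 h2)).resolve_left hx

theorem propMod_mono {v w : (K →+* L) → ℤ} (h : ∀ c, IsRel w c → IsRel v c) {r : ℕ}
    (hp : Prop_mod v r) : Prop_mod w r :=
  fun c c' hc hc' => hp c c' (h c hc) (h c' hc')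

end links

section weil

variable {p m : ℕ} [hp : Fact p.Prime]

/-- An automorphism of the algebraic closure of `ℚ_p` induces one of the Galois extension `L`. -/
theorem lift_aut {L : Type} [Field L] [NumberField L] [IsGalois ℚ L] (jp : L →+* PadicAlgCl p)
    (σ : PadicAlgCl p ≃+* PadicAlgCl p) : ∃ g : L ≃ₐ[ℚ] L, ∀ x : L, σ (jp x) = jp (g x) := by
  let _ : Algebra L (PadicAlgCl p) := jp.toAlgebra
  have _ : IsScalarTower ℚ L (PadicAlgCl p) := IsScalarTower.of_algebraMap_eq fun q => by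
    rw [eq_ratCast, eq_ratCast]
    exact (map_ratCast jp q).symm
  let f : PadicAlgCl p →ₐ[ℚ] PadicAlgCl p := (σ : PadicAlgCl p →+* PadicAlgCl p).toRatAlgHom
  refine ⟨AlgEquiv.ofBijective (f.restrictNormal L) (AlgHom.normal_bijective ℚ L L _), fun x => ?_⟩
  exact (AlgHom.restrictNormal_commutes f L x).symm

theorem comp_smul {K L : Type} [Field K] [NumberField K] [Field L] [NumberField L]
    {jp : L →+* PadicAlgCl p} {σ : PadicAlgCl p ≃+* PadicAlgCl p} {g : L ≃ₐ[ℚ] L}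
    (h : ∀ x : L, σ (jp x) = jp (g x)) (φ : K →+* L) :
    (σ : PadicAlgCl p →+* PadicAlgCl p).comp (jp.comp φ) = jp.comp (g • φ) :=
  RingHom.ext fun x => h (φ x)

variable {W : WeilNumber p m}

theorem dev_cbar (τ : W.K →+* PadicAlgCl p) : dev W (cbar τ) = - dev W τ := by
  obtain ⟨κ, u, hκ, hu⟩ := exists_slopes_pos (p := p) (ne_zero_of_weil W.weil) m
  have h1 := anti_of_slopes' W.weil hκ.ne' hu τ
  unfold dev
  rw [hu, hu, h1]
  push_cast
  ring

theorem pencil_odd {v : (W.K →+* PadicAlgCl p) → ℤ} (hv : IsPencil W v)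
    (τ : W.K →+* PadicAlgCl p) : v (cbar τ) = - v τ := by
  obtain ⟨σ, a, b, h⟩ := hv
  have h1 := h (cbar τ)
  have h2 := h τ
  have h3 : (σ : PadicAlgCl p →+* PadicAlgCl p).comp (cbar τ) =
      cbar ((σ : PadicAlgCl p →+* PadicAlgCl p).comp τ) := rfl
  rw [h3, dev_cbar, dev_cbar] at h1
  have h4 : ((v (cbar τ) : ℤ) : ℝ) = ((- v τ : ℤ) : ℝ) := by
    push_cast
    rw [h1, h2]
    ring
  exact_mod_cast h4

variable {L : Type} [Field L] [NumberField L] [IsGalois ℚ L]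

theorem rel_pencil (jp : L →+* PadicAlgCl p) {w : (W.K →+* L) → ℤ} {D : ℝ} (hD : D ≠ 0)
    (hw : ∀ φ, (w φ : ℝ) = D * dev W (jp.comp φ)) {v : (W.K →+* PadicAlgCl p) → ℤ}
    (hv : IsPencil W v) {c : (W.K →+* L) → ℤ} (hc : IsRel w c) :
    IsRel (fun φ => v (jp.comp φ)) c := by
  obtain ⟨σ, a, b, h⟩ := hv
  obtain ⟨k, hk⟩ := lift_aut jp σ
  refine ⟨hc.1, fun g => ?_⟩
  have h1 : ∀ g : L ≃ₐ[ℚ] L, ∑ φ : W.K →+* L, (c φ : ℝ) * dev W (jp.comp (g • φ)) = 0 := by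
    intro g
    have h2 : ((∑ φ : W.K →+* L, c φ * w (g • φ) : ℤ) : ℝ) =
        D * ∑ φ : W.K →+* L, (c φ : ℝ) * dev W (jp.comp (g • φ)) := by
      push_cast
      rw [Finset.mul_sum]
      refine Finset.sum_congr rfl fun φ _ => ?_
      rw [hw]
      ring
    rw [hc.2 g, Int.cast_zero] at h2
    exact (mul_eq_zero.1 h2.symm).resolve_left hD
  have h3 : ((∑ φ : W.K →+* L, c φ * v (jp.comp (g • φ)) : ℤ) : ℝ) =
      a * ∑ φ : W.K →+* L, (c φ : ℝ) * dev W (jp.comp (g • φ)) +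
      b * ∑ φ : W.K →+* L, (c φ : ℝ) * dev W (jp.comp ((k * g) • φ)) := by
    push_cast
    rw [Finset.mul_sum, Finset.mul_sum, ← Finset.sum_add_distrib]
    refine Finset.sum_congr rfl fun φ _ => ?_
    rw [h, comp_smul hk, mul_smul]
    ring
  rw [h1, h1, mul_zero, mul_zero, add_zero] at h3
  exact_mod_cast h3

theorem propMod_of_few (hW : FewValues W ∨ FewEvenValues W) {j : L →+* ℂ}
    (h : ∀ ψ : W.K →+* ℂ, ∃ φ : W.K →+* L, j.comp φ = ψ) (jp : L →+* PadicAlgCl p)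
    {κc : L ≃ₐ[ℚ] L} (hκc : ∀ φ : W.K →+* L, κc • φ = cbar φ)
    {w : (W.K →+* L) → ℤ} {D : ℝ} (hD : D ≠ 0) (hw : ∀ φ, (w φ : ℝ) = D * dev W (jp.comp φ)) :
    ∃ r : ℕ, r.Prime ∧ Prop_mod w r := by
  rcases hW with ⟨r, hr, hW⟩ | ⟨v, x, y, hv, hsup, hxy⟩
  · refine ⟨r, hr, ?_⟩
    rcases hW with ⟨x, v, hv, hsup⟩ | hS
    · refine prop_zero hr fun f hf φ => ?_
      obtain ⟨x, rfl⟩ := exists_lift_padic j h jp x
      obtain ⟨g, rfl⟩ := MulAction.exists_smul_eq (L ≃ₐ[ℚ] L) x φ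
      refine dvd_of_single (v := fun φ => v (jp.comp φ)) (fun φ => ?_) hr (fun φ hφ => ?_) ?_
        (rel_pencil jp hD hw hv hf) g
      · rw [cbar_comp]
        exact pencil_odd hv _
      · have h1 := (inPairs_comp jp x x φ).1 ((hsup _).1 hφ)
        rcases h1 with h1 | h1 | h1 | h1
        · exact Or.inl h1
        · exact Or.inr h1
        · exact Or.inl h1
        · exact Or.inr h1
      · exact (hsup _).2 (Or.inl rfl)
    · refine prop_links hκc hr fun t ht hl => hS t ht fun x y hxy => ?_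
      obtain ⟨x, rfl⟩ := exists_lift_padic j h jp x
      obtain ⟨y, rfl⟩ := exists_lift_padic j h jp y
      refine congrArg jp (hl x y fun f hf g => ?_)
      obtain ⟨v, hv, hsup⟩ := hxy
      refine lk_of_support (v := fun φ => v (jp.comp φ)) (fun φ => ?_) hr (fun φ => ?_)
        (rel_pencil jp hD hw hv hf) g
      · rw [cbar_comp]
        exact pencil_odd hv _
      · rw [hsup, inPairs_comp]
  · obtain ⟨x, rfl⟩ := exists_lift_padic j h jp x
    obtain ⟨y, rfl⟩ := exists_lift_padic j h jp y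
    refine ⟨2, Nat.prime_two, propMod_mono (v := fun φ => v (jp.comp φ))
      (fun c hc => rel_pencil jp hD hw hv hc) ?_⟩
    refine propMod_of_fewEven hκc h (fun φ => ?_) (x := x) (y := y) (fun φ => ?_) ?_
    · rw [cbar_comp]
      exact pencil_odd hv _
    · rw [hsup, inPairs_comp]
    · rcases hxy with h1 | ⟨h1, h2⟩
      · exact Or.inl (comp_inj jp h1)
      · exact Or.inr ⟨onlyRat_comp jp h1, h2⟩

/-- A nonzero relation gives a supersingular norm to an imaginary quadratic field. -/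
theorem hasWeil_of_rel (hW : FewValues W ∨ FewEvenValues W) {j : L →+* ℂ}
    (h : ∀ ψ : W.K →+* ℂ, ∃ φ : W.K →+* L, j.comp φ = ψ) (jp : L →+* PadicAlgCl p)
    {κc : L ≃ₐ[ℚ] L} (hκc : ∀ φ : W.K →+* L, κc • φ = cbar φ)
    {w : (W.K →+* L) → ℤ} {D : ℝ} (hD : D ≠ 0)
    (hw : ∀ φ, (w φ : ℝ) = D * dev W (jp.comp φ))
    (hodd : ∀ φ, w (cbar φ) = - w φ)
    (hc : ∃ c, IsRel w c ∧ ∃ φ, c φ ≠ 0) : HasWeil W := by
  obtain ⟨r, hr, hpr⟩ := propMod_of_few hW h jp hκc hD hw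
  obtain ⟨c, hc, φ₀, hφ₀⟩ := hc
  obtain ⟨T, h2, hT, htr⟩ := quad_of_rel h hκc hodd hr hpr hc hφ₀
  exact hasWeil_of_tr h jp hD hw h2 hT htr

end weil

end

end Pool.Agent.TH776.FM
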