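import Pool.Agent.TH776.FS.Non
import Pool.Agent.TH776.FM.Main

/-!
# The slopes `0`, `a / 2`, `a` with at most two pairs of embeddings of middle slope
-/

namespace Pool.Agent.TH776.FM

open NumberField Module Pool.Agent.H204R3.CM Pool.Agent.W527.TateRing Pool.Agent.TH776.FS

noncomputable section

variable {p m : ℕ} [hp : Fact p.Prime] {W : WeilNumber p m}

theorem pencil_of_isDev {u : (W.K →+* PadicAlgCl p) → ℤ} (hu : IsDev W u) : IsPencil W u := by
  obtain ⟨κ, hκ, h⟩ := hu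
  refine ⟨RingEquiv.refl _, κ⁻¹, 0, fun τ => ?_⟩
  unfold dev
  rw [h, zero_mul, add_zero, ← mul_assoc, inv_mul_cancel₀ hκ, one_mul]

theorem fewEvenValues_of_middle (hm : 0 < m) (x y : W.K →+* PadicAlgCl p)
    (h1 : ∀ τ, InPairs x y τ → ‖τ W.π‖ ^ 2 = ((p : ℝ) ^ m)⁻¹)
    (h2 : ∀ τ, ¬ InPairs x y τ → ‖τ W.π‖ = 1 ∨ ‖τ W.π‖ = ((p : ℝ) ^ m)⁻¹)
    (hxy : x = y ∨ OnlyRat x y ∧ (finrank ℚ W.K % 8 = 4 →
      ∀ F : IntermediateField ℚ W.K, finrank ℚ F = 2 → IsCM F)) : FewEvenValues W := by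
  obtain ⟨u, x', y', hu, hsup, hxy'⟩ := fewEven_of_slopes hm x y h1 h2 hxy
  exact ⟨u, x', y', pencil_of_isDev hu, hsup, hxy'⟩

theorem slopes_middle (hm : 0 < m) (x y : W.K →+* PadicAlgCl p)
    (h1 : ∀ τ, InPairs x y τ → ‖τ W.π‖ ^ 2 = ((p : ℝ) ^ m)⁻¹)
    (h2 : ∀ τ, ¬ InPairs x y τ → ‖τ W.π‖ = 1 ∨ ‖τ W.π‖ = ((p : ℝ) ^ m)⁻¹)
    (hxy : x = y ∨ OnlyRat x y ∧ (finrank ℚ W.K % 8 = 4 →
      ∀ F : IntermediateField ℚ W.K, finrank ℚ F = 2 → IsCM F))
    (hcard : Nat.card {τ // ¬ InPairs x y τ} % 4 = 2) :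
    FewEvenValues W ∧ ¬ HasWeil W := by
  classical
  have hp1 : (1 : ℝ) < p := by exact_mod_cast hp.out.one_lt
  have hlogp : 0 < Real.log p := Real.log_pos hp1
  have hm' : (m : ℝ) ≠ 0 := by exact_mod_cast hm.ne'
  let u : (W.K →+* PadicAlgCl p) → ℤ := fun τ =>
    if InPairs x y τ then 0 else if ‖τ W.π‖ = 1 then -1 else 1
  have hu : IsDev W u := by
    refine ⟨m, hm', fun τ => ?_⟩
    by_cases h3 : InPairs x y τ
    · have h4 := h1 τ h3
      have h5 : u τ = 0 := if_pos h3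
      rw [h5, Int.cast_zero, mul_zero]
      have h6 := congrArg Real.log h4
      rw [Real.log_pow, Real.log_inv, Real.log_pow] at h6
      rw [Real.logb]
      field_simp
      push_cast at h6
      linarith
    · rcases h2 τ h3 with h4 | h4
      · have h5 : u τ = -1 := by
          simp only [u, if_neg h3, if_pos h4]
        rw [h5, h4, Real.logb_one]
        push_cast
        ring
      · have hlt : ((p : ℝ) ^ m)⁻¹ < 1 := by
          rw [inv_lt_one₀ (pow_pos (by linarith) m)]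
          exact one_lt_pow₀ hp1 hm.ne'
        have h5 : u τ = 1 := by
          have h6 : ‖τ W.π‖ ≠ 1 := by rw [h4]; exact hlt.ne
          simp only [u, if_neg h3, if_neg h6]
        rw [h5, h4, Real.logb_inv, Real.logb_pow, Real.logb_self_eq_one hp1]
        push_cast
        ring
  have heven : ∀ τ, Even (u τ) ↔ InPairs x y τ := by
    intro τ
    constructor
    · intro h3
      by_contra h4
      simp only [u, if_neg h4] at h3
      split_ifs at h3
      · exact absurd h3 (by decide)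
      · exact absurd h3 (by decide)
    · intro h3
      simp only [u, if_pos h3]
      exact Even.zero
  refine ⟨⟨u, x, y, pencil_of_isDev hu, heven, hxy⟩, not_hasWeil_of_odd hu ?_⟩
  rw [← hcard]
  congr 1
  refine Nat.card_congr (Equiv.subtypeEquivRight fun τ => ?_)
  rw [← Int.not_even_iff_odd, heven]

end

end Pool.Agent.TH776.FM
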