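import Pool.Agent.TH776.FM.Frob
import Pool.Agent.W527.TateFinal
import Pool.Agent.W516.FourDefs

/-!
# Relations of length four
-/

set_option linter.unusedSectionVars false
set_option linter.unusedVariables false

namespace Pool.Agent.TH776.FM

open NumberField Module Equiv Pool.Agent.H204R3.CM Pool.Agent.H977R3.WN Pool.Agent.W527
  Pool.Agent.W527.Dec Pool.Agent.W527.TateRing Pool.Agent.H485R3.Exact Pool.Agent.TH776.FS

noncomputable section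

theorem comb4 : ∀ k k' l l' : Fin 4, k ≠ k' → l ≠ l' → l ≠ k → l ≠ k' → l' ≠ k → l' ≠ k' →
    (k, k', l, l') ∈ ([
        (0, 1, 2, 3), (0, 1, 3, 2), (0, 2, 1, 3), (0, 2, 3, 1), (0, 3, 1, 2), (0, 3, 2,
        1), (1, 0, 2, 3), (1, 0, 3, 2), (1, 2, 0, 3), (1, 2, 3, 0), (1, 3, 0, 2), (1, 3,
        2, 0), (2, 0, 1, 3), (2, 0, 3, 1), (2, 1, 0, 3), (2, 1, 3, 0), (2, 3, 0, 1), (2,
        3, 1, 0), (3, 0, 1, 2), (3, 0, 2, 1), (3, 1, 0, 2), (3, 1, 2, 0), (3, 2, 0, 1),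
        (3, 2, 1, 0)] : List (Fin 4 × Fin 4 × Fin 4 × Fin 4)) := by
  decide

section blocks

variable {L : Type*} [Field L] [NumberField L] [IsGalois ℚ L]
variable {ι : Type*} [Fintype ι] {E : ι → Type*} [∀ i, Field (E i)] [∀ i, NumberField (E i)]
  [∀ i, IsCMField (E i)]

/-- A nonempty balanced family without pairs contains a half system of one field. -/
theorem exists_half {w : ∀ i, (E i →+* L) → ℤ} (hw : ∀ i φ, w i (cbar φ) = - w i φ)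
    (hind : IndepL L E) (habs : ∀ i c, IsRel (w i) c → ∀ φ φ', |c φ| = |c φ'|)
    {A : Type*} [Fintype A] [Nonempty A] (μ : A → Σ i, (E i →+* L))
    (hμ : ∀ g : L ≃ₐ[ℚ] L, ∑ k, wtS w g (μ k) = 0)
    (hpair : ∀ k k' : A, μ k' ≠ ⟨(μ k).1, cbar (μ k).2⟩) :
    ∃ (S : Finset A) (i : ι), (∃ c, IsRel (w i) c ∧ ∃ φ, c φ ≠ 0) ∧
      (∀ g : L ≃ₐ[ℚ] L, ∑ k ∈ S, wtS w g (μ k) = 0) ∧
      2 * S.card = Fintype.card (E i →+* L) := by
  classical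
  let n : ∀ i, (E i →+* L) → ℤ := fun i φ =>
    ((Finset.univ.filter (fun k => μ k = ⟨i, φ⟩)).card : ℤ)
  have hn0 : ∀ i φ, 0 ≤ n i φ := fun i φ => Int.natCast_nonneg _
  have hn1 : ∀ i φ, 0 < n i φ → ∃ k, μ k = ⟨i, φ⟩ := by
    intro i φ h
    obtain ⟨k, hk⟩ := Finset.card_pos.1 (Int.natCast_pos.1 h)
    exact ⟨k, (Finset.mem_filter.1 hk).2⟩
  have hn2 : ∀ k, 0 < n (μ k).1 (μ k).2 := fun k =>
    Int.natCast_pos.2 (Finset.card_pos.2 ⟨k, Finset.mem_filter.2 ⟨Finset.mem_univ _, rfl⟩⟩)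
  have hsum : ∀ g : L ≃ₐ[ℚ] L, ∑ i, ∑ φ : E i →+* L, n i φ * w i (g • φ) = 0 := by
    intro g
    rw [← hμ g]
    have h1 : ∑ i, ∑ φ : E i →+* L, n i φ * w i (g • φ) =
        ∑ x : Σ i, (E i →+* L), n x.1 x.2 * wtS w g x := by
      rw [Fintype.sum_sigma]
      rfl
    rw [h1, ← Finset.sum_fiberwise (s := Finset.univ) (g := μ)]
    refine Finset.sum_congr rfl fun x _ => ?_
    have h2 : ∑ k ∈ Finset.univ.filter (fun k => μ k = x), wtS w g (μ k) =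
        ∑ k ∈ Finset.univ.filter (fun k => μ k = x), wtS w g x :=
      Finset.sum_congr rfl fun k hk => by rw [(Finset.mem_filter.1 hk).2]
    rw [h2, Finset.sum_const, nsmul_eq_mul]
  let b : ∀ i, (E i →+* L) → ℤ := fun i φ => n i φ - n i (cbar φ)
  have hb : ∀ i φ, b i (cbar φ) = - b i φ := by
    intro i φ
    simp only [b, cbar_cbar]
    ring
  have hbrel : ∀ g : L ≃ₐ[ℚ] L, ∑ i, ∑ φ : E i →+* L, b i φ * w i (g • φ) = 0 := by
    intro g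
    have h1 : ∀ i, ∑ φ : E i →+* L, n i (cbar φ) * w i (g • φ) =
        - ∑ φ : E i →+* L, n i φ * w i (g • φ) := by
      intro i
      rw [← Finset.sum_neg_distrib]
      let e : (E i →+* L) ≃ (E i →+* L) := ⟨cbar, cbar, cbar_cbar, cbar_cbar⟩
      refine Fintype.sum_equiv e _ _ fun φ => ?_
      have h5 : e φ = cbar φ := rfl
      have h6 : g • cbar φ = cbar (g • φ) := rfl
      rw [h5, h6, hw]
      ring
    have h2 : ∀ i, ∑ φ : E i →+* L, b i φ * w i (g • φ) =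
        2 * ∑ φ : E i →+* L, n i φ * w i (g • φ) := by
      intro i
      simp only [b, sub_mul, Finset.sum_sub_distrib]
      rw [h1]
      ring
    simp only [h2]
    rw [← Finset.mul_sum, hsum, mul_zero]
  obtain ⟨k₀⟩ := (inferInstance : Nonempty A)
  have hcb0 : n (μ k₀).1 (cbar (μ k₀).2) = 0 := by
    by_contra hne
    obtain ⟨k', hk'⟩ := hn1 _ _ (lt_of_le_of_ne (hn0 _ _) (Ne.symm hne))
    exact hpair k₀ k' hk'
  have hpos : 0 < b (μ k₀).1 (μ k₀).2 := by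
    change 0 < n _ _ - n _ _
    rw [hcb0, sub_zero]
    exact hn2 k₀
  have hr := split_rel hw hind hb hbrel (μ k₀).1
  obtain ⟨hbal, hcard⟩ := half_balanced (hw _) hr (habs _ _ hr) hpos
  have hex : ∀ φ : E (μ k₀).1 →+* L, 0 < b (μ k₀).1 φ → ∃ k, μ k = ⟨(μ k₀).1, φ⟩ := by
    intro φ hφ
    apply hn1
    have h1 : b (μ k₀).1 φ = n _ φ - n _ (cbar φ) := rfl
    have h2 := hn0 (μ k₀).1 (cbar φ)
    omega
  choose! kk hkk using hex
  have hinj : Set.InjOn kk (Finset.univ.filter (fun φ => 0 < b (μ k₀).1 φ) :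
      Finset (E (μ k₀).1 →+* L)) := by
    intro φ hφ φ' hφ' hh
    have h1 := hkk φ (Finset.mem_filter.1 hφ).2
    have h2 := hkk φ' (Finset.mem_filter.1 hφ').2
    rw [hh, h2] at h1
    exact (eq_of_heq (Sigma.mk.inj h1).2).symm
  refine ⟨(Finset.univ.filter (fun φ => 0 < b (μ k₀).1 φ)).image kk, (μ k₀).1,
    ⟨b _, hr, (μ k₀).2, hpos.ne'⟩, fun g => ?_, ?_⟩
  · refine (Finset.sum_image hinj).trans (Eq.trans ?_ (hbal g))
    refine Finset.sum_congr rfl fun φ hφ => ?_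
    rw [hkk φ (Finset.mem_filter.1 hφ).2]
    rfl
  · rw [Finset.card_image_of_injOn hinj]
    exact hcard


/-- Balanced families with two or four members contain a pair, if fields of degree two, four and
eight have no relations. -/
theorem exists_pair {w : ∀ i, (E i →+* L) → ℤ} (hw : ∀ i φ, w i (cbar φ) = - w i φ)
    (hind : IndepL L E) (habs : ∀ i c, IsRel (w i) c → ∀ φ φ', |c φ| = |c φ'|)
    (hdeg : ∀ i, (∃ c, IsRel (w i) c ∧ ∃ φ, c φ ≠ 0) → Fintype.card (E i →+* L) ≠ 2 ∧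
      Fintype.card (E i →+* L) ≠ 4 ∧ Fintype.card (E i →+* L) ≠ 8)
    {A : Type*} [DecidableEq A] (T : Finset A) (hT : T.card = 2 ∨ T.card = 4)
    (μ : A → Σ i, (E i →+* L)) (hμ : ∀ g : L ≃ₐ[ℚ] L, ∑ k ∈ T, wtS w g (μ k) = 0) :
    ∃ k ∈ T, ∃ k' ∈ T, μ k' = ⟨(μ k).1, cbar (μ k).2⟩ := by
  classical
  by_contra hno
  push Not at hno
  have half : ∀ T' : Finset A, T' ⊆ T → T'.Nonempty →
      (∀ g : L ≃ₐ[ℚ] L, ∑ k ∈ T', wtS w g (μ k) = 0) → ∃ S ⊆ T', S.card = 3 ∧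
        ∀ g : L ≃ₐ[ℚ] L, ∑ k ∈ S, wtS w g (μ k) = 0 := by
    intro T' hT' hne hbal
    have _ : Nonempty {k // k ∈ T'} := ⟨⟨hne.choose, hne.choose_spec⟩⟩
    obtain ⟨S, i, h1, h2, h3⟩ := exists_half hw hind habs (fun k : {k // k ∈ T'} => μ k) (fun g => by
      rw [← hbal g]
      exact Finset.sum_coe_sort T' (fun k => wtS w g (μ k)))
      (fun k k' => hno k (hT' k.2) k' (hT' k'.2))
    obtain ⟨c, hc, φ, hφ⟩ := id h1
    obtain ⟨h4, h5, h6⟩ := hdeg i h1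
    have h7 : 0 < Fintype.card (E i →+* L) := Fintype.card_pos_iff.2 ⟨φ⟩
    have h8 : S.card ≤ T'.card := by
      have := Finset.card_le_univ S
      rwa [Fintype.card_coe] at this
    have h9 : T'.card ≤ T.card := Finset.card_le_card hT'
    refine ⟨S.map (Function.Embedding.subtype _), ?_, ?_, fun g => ?_⟩
    · intro k hk
      obtain ⟨k₁, hk₁, rfl⟩ := Finset.mem_map.1 hk
      exact k₁.2
    · rw [Finset.card_map]
      omega
    · rw [Finset.sum_map]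
      exact h2 g
  have hne : T.Nonempty := Finset.card_pos.1 (by omega)
  obtain ⟨S, hST, hS, hbal⟩ := half T subset_rfl hne hμ
  have hcard : (T \ S).card = T.card - 3 := by rw [Finset.card_sdiff_of_subset hST, hS]
  have hle := Finset.card_le_card hST
  have hbal' : ∀ g : L ≃ₐ[ℚ] L, ∑ k ∈ T \ S, wtS w g (μ k) = 0 := by
    intro g
    have h5 := Finset.sum_sdiff (f := fun k => wtS w g (μ k)) hST
    rw [hbal g, add_zero, hμ g] at h5
    exact h5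
  obtain ⟨S', hS'T, hS', -⟩ := half (T \ S) Finset.sdiff_subset
    (Finset.card_pos.1 (by omega)) hbal'
  have h10 := Finset.card_le_card hS'T
  omega

/-- A balanced family with four members consists of two pairs. -/
theorem two_pairs {w : ∀ i, (E i →+* L) → ℤ} (hw : ∀ i φ, w i (cbar φ) = - w i φ)
    (hind : IndepL L E) (habs : ∀ i c, IsRel (w i) c → ∀ φ φ', |c φ| = |c φ'|)
    (hdeg : ∀ i, (∃ c, IsRel (w i) c ∧ ∃ φ, c φ ≠ 0) → Fintype.card (E i →+* L) ≠ 2 ∧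
      Fintype.card (E i →+* L) ≠ 4 ∧ Fintype.card (E i →+* L) ≠ 8)
    (μ : Fin 4 → Σ i, (E i →+* L)) (hμ : ∀ g : L ≃ₐ[ℚ] L, ∑ k, wtS w g (μ k) = 0)
    (Q : Fin 4 → Fin 4 → Prop) (hQ : ∀ k k', μ k' = ⟨(μ k).1, cbar (μ k).2⟩ → Q k k')
    (hsymm : ∀ k k', Q k k' → Q k' k) :
    (Q 0 1 ∧ Q 2 3) ∨ (Q 0 2 ∧ Q 1 3) ∨ (Q 0 3 ∧ Q 1 2) := by
  classical
  have hne : ∀ k k', μ k' = ⟨(μ k).1, cbar (μ k).2⟩ → k ≠ k' := by
    rintro k k' hkk rfl
    have h1 : (⟨(μ k).1, (μ k).2⟩ : Σ i, (E i →+* L)) = ⟨(μ k).1, cbar (μ k).2⟩ := hkk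
    exact cbar_ne (μ k).2 (eq_of_heq (Sigma.mk.inj h1).2).symm
  obtain ⟨k, -, k', -, hk⟩ := exists_pair hw hind habs hdeg Finset.univ (Or.inr (by simp)) μ hμ
  have hkk := hne k k' hk
  have hsub : ({k, k'} : Finset (Fin 4)) ⊆ Finset.univ := Finset.subset_univ _
  have hbal : ∀ g : L ≃ₐ[ℚ] L, ∑ k ∈ Finset.univ \ {k, k'}, wtS w g (μ k) = 0 := by
    intro g
    have h5 := Finset.sum_sdiff (f := fun k => wtS w g (μ k)) hsub
    have h6 : ∑ l ∈ ({k, k'} : Finset (Fin 4)), wtS w g (μ l) = 0 := by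
      rw [Finset.sum_pair hkk, hk]
      have h1 : wtS w g ⟨(μ k).1, cbar (μ k).2⟩ = w (μ k).1 (cbar (g • (μ k).2)) := rfl
      rw [h1, hw]
      unfold wtS
      ring
    rw [h6, add_zero, hμ g] at h5
    exact h5
  obtain ⟨l, hl, l', hl', hll⟩ := exists_pair hw hind habs hdeg (Finset.univ \ {k, k'})
    (Or.inl (by rw [Finset.card_sdiff_of_subset hsub, Finset.card_pair hkk]; simp)) μ hbal
  have hll' := hne l l' hll
  have h1 := hQ k k' hk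
  have h2 := hQ l l' hll
  have h3 := hsymm _ _ h1
  have h4 := hsymm _ _ h2
  simp only [Finset.mem_sdiff, Finset.mem_univ, true_and, Finset.mem_insert,
    Finset.mem_singleton, not_or] at hl hl'
  have hc := comb4 k k' l l' hkk hll' hl.1 hl.2 hl'.1 hl'.2
  simp only [List.mem_cons, Prod.mk.injEq, List.not_mem_nil, or_false] at hc
  clear hne hbal hsub hμ hQ hsymm hk hll hkk hll' hl hl'
  rcases hc with
    ⟨rfl, rfl, rfl, rfl⟩ | ⟨rfl, rfl, rfl, rfl⟩ | ⟨rfl, rfl, rfl, rfl⟩ | ⟨rfl, rfl, rfl,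
    rfl⟩ | ⟨rfl, rfl, rfl, rfl⟩ | ⟨rfl, rfl, rfl, rfl⟩ | ⟨rfl, rfl, rfl, rfl⟩ | ⟨rfl, rfl,
    rfl, rfl⟩ | ⟨rfl, rfl, rfl, rfl⟩ | ⟨rfl, rfl, rfl, rfl⟩ | ⟨rfl, rfl, rfl, rfl⟩ | ⟨rfl,
    rfl, rfl, rfl⟩ | ⟨rfl, rfl, rfl, rfl⟩ | ⟨rfl, rfl, rfl, rfl⟩ | ⟨rfl, rfl, rfl, rfl⟩ |
    ⟨rfl, rfl, rfl, rfl⟩ | ⟨rfl, rfl, rfl, rfl⟩ | ⟨rfl, rfl, rfl, rfl⟩ | ⟨rfl, rfl, rfl,
    rfl⟩ | ⟨rfl, rfl, rfl, rfl⟩ | ⟨rfl, rfl, rfl, rfl⟩ | ⟨rfl, rfl, rfl, rfl⟩ | ⟨rfl, rfl,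
    rfl, rfl⟩ | ⟨rfl, rfl, rfl, rfl⟩ <;> tauto

end blocks

end

end Pool.Agent.TH776.FM
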