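import Pool.Agent.TH776.FM.Four

/-!
# Relations of length four: Weil numbers
-/

set_option linter.unusedSectionVars false
set_option linter.unusedVariables false

namespace Pool.Agent.TH776.FM

open NumberField Module Equiv Pool.Agent.H204R3.CM Pool.Agent.H977R3.WN Pool.Agent.W527
  Pool.Agent.W527.Dec Pool.Agent.W527.TateRing Pool.Agent.H485R3.Exact Pool.Agent.TH776.FS
  Pool.Agent.W516.FT

noncomputable section

variable {p m : ℕ} [hp : Fact p.Prime] {ι : Type} [Fintype ι] {W : ι → WeilNumber p m}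

theorem exists_root {a : ℂ} (ha : a ∈ (∏ i, minpoly ℚ (W i).π).rootSet ℂ) :
    ∃ i, ∃ σ : (W i).K →+* ℂ, σ (W i).π = a := by
  have h1 := (Polynomial.mem_rootSet.1 ha).2
  rw [map_prod] at h1
  obtain ⟨i, -, hi⟩ := Finset.prod_eq_zero_iff.1 h1
  refine ⟨i, ?_⟩
  have h2 : a ∈ (minpoly ℚ (W i).π).rootSet ℂ := by
    rw [Polynomial.mem_rootSet]
    exact ⟨minpoly.ne_zero (W i).integral.tower_top, hi⟩
  rw [← NumberField.Embeddings.range_eval_eq_rootSet_minpoly] at h2
  exact h2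

/-- Only trivial relations of length four. -/
theorem onlyTrivial (hW : ∀ i, FewValues (W i) ∨ FewEvenValues (W i)) (hind : Independent W)
    (hdeg : ∀ i, HasWeil (W i) → finrank ℚ (W i).K ≠ 2 ∧ finrank ℚ (W i).K ≠ 4 ∧
      finrank ℚ (W i).K ≠ 8) :
    OnlyTrivialRelationsOfLengthFour (∏ i, minpoly ℚ (W i).π) (p ^ m) := by
  classical
  obtain ⟨D, N, κ, u, hD, hN, hκ, hNκ, hu⟩ := exists_weights W
  obtain ⟨L, _, _, j, h⟩ := exists_galois (fun i => (W i).K)
  let jp : L →+* PadicAlgCl p := ((IsAlgClosed.lift : L →ₐ[ℚ] PadicAlgCl p) : L →+* PadicAlgCl p)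
  obtain ⟨κc, hκc⟩ := exists_lift j (starRingAut : ℂ ≃+* ℂ)
  have hκc' : ∀ x, starRingEnd ℂ (j x) = j (κc x) := hκc
  have hκc'' : ∀ i, ∀ φ : (W i).K →+* L, κc • φ = cbar φ := by
    intro i φ
    apply Pool.Agent.W527.comp_injective j
    change j.comp (κc • φ) = j.comp (cbar φ)
    rw [comp_cbar]
    exact RingHom.ext fun x => (hκc' (φ x)).symm
  have hodd : ∀ i, ∀ φ : (W i).K →+* L, ww N u jp i (cbar φ) = - ww N u jp i φ :=
    fun i φ => ww_odd hκ hu jp i φ
  have hDr : (D : ℝ) ≠ 0 := by exact_mod_cast hD.ne'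
  have hwD : ∀ i, ∀ φ : (W i).K →+* L, ((ww N u jp i φ : ℤ) : ℝ) =
      (D : ℝ) * dev (W i) (jp.comp φ) := by
    intro i φ
    unfold dev
    rw [hu]
    unfold ww
    have h3 : (N i : ℝ) = κ i * D := by exact_mod_cast hNκ i
    push_cast
    rw [h3]
    ring
  have hindL : IndepL L (fun i => (W i).K) := by
    intro i
    obtain ⟨σ, h1, h2⟩ := hind i
    obtain ⟨g, hg⟩ := exists_lift j σ
    refine ⟨g, fun φ => ?_, fun i' hi' φ => ?_⟩
    · apply Pool.Agent.W527.comp_injective j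
      change j.comp (g • φ) = j.comp (cbar φ)
      rw [comp_cbar, ← h1 (j.comp φ), lifts_comp j hg]
    · apply Pool.Agent.W527.comp_injective j
      change j.comp (g • φ) = j.comp φ
      rw [← lifts_comp j hg, h2 i' hi']
  have habs : ∀ i c, IsRel (ww N u jp i) c → ∀ φ φ' : (W i).K →+* L, |c φ| = |c φ'| :=
    fun i => abs_of_propMod (propMod_of_few (hW i) (h i) jp (hκc'' i) hDr (hwD i))
  have hdeg' : ∀ i, (∃ c, IsRel (ww N u jp i) c ∧ ∃ φ, c φ ≠ 0) →
      Fintype.card ((W i).K →+* L) ≠ 2 ∧ Fintype.card ((W i).K →+* L) ≠ 4 ∧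
      Fintype.card ((W i).K →+* L) ≠ 8 := by
    intro i hc
    rw [Pool.Agent.H204R3.CM.card_emb j (h i)]
    exact hdeg i (hasWeil_of_rel (hW i) (h i) jp (hκc'' i) hDr (hwD i) (hodd i) hc)
  have hroot : ∀ a ∈ (∏ i, minpoly ℚ (W i).π).rootSet ℂ,
      ∃ y : Σ i, ((W i).K →+* L), a = j (y.2 (W y.1).π) := by
    intro a ha
    obtain ⟨i, σ, hσ⟩ := exists_root ha
    obtain ⟨φ, rfl⟩ := h i σ
    exact ⟨⟨i, φ⟩, hσ.symm⟩
  intro M hM a ha b hb c hc d hd hrel
  obtain ⟨y₀, hy₀⟩ := hroot a ha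
  obtain ⟨y₁, hy₁⟩ := hroot b hb
  obtain ⟨y₂, hy₂⟩ := hroot c hc
  obtain ⟨y₃, hy₃⟩ := hroot d hd
  let μ : Fin 4 → Σ i, ((W i).K →+* L) := ![y₀, y₁, y₂, y₃]
  have hval : ∀ k, ![a, b, c, d] k = j ((μ k).2 (W (μ k).1).π) := by
    intro k
    fin_cases k
    · exact hy₀
    · exact hy₁
    · exact hy₂
    · exact hy₃
  have hPP : j (PP μ) = a * b * c * d := by
    unfold PP
    rw [map_prod, Fin.prod_univ_four, ← hval, ← hval, ← hval, ← hval]
    rfl
  have hrel' : PP μ ^ (2 * M) = ((p ^ m : ℕ) : L) ^ (M * Fintype.card (Fin 4)) := by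
    apply j.injective
    rw [map_pow, map_pow, hPP, map_natCast, Fintype.card_fin, mul_comm 2 M, pow_mul, hrel, ← pow_mul]
    congr 1
    ring
  have hbal : ∀ g : L ≃ₐ[ℚ] L, ∑ k, wtS (ww N u jp) g (μ k) = 0 :=
    fun g => sum_of_rel hD hNκ hu jp μ hM hrel' g
  have h4 := two_pairs hodd hindL habs hdeg' μ hbal
    (fun k k' => ![a, b, c, d] k * ![a, b, c, d] k' = ((p ^ m : ℕ) : ℂ)) (fun k k' hkk => ?_)
    (fun k k' hkk => by rw [mul_comm]; exact hkk)
  · exact h4
  · rw [hval, hval, hkk]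
    change j ((μ k).2 (W (μ k).1).π) *
      j ((μ k).2 (IsCMField.complexConj (W (μ k).1).K (W (μ k).1).π)) = _
    rw [← map_mul, ← map_mul, mul_conj]
    simp only [map_pow, map_natCast, Nat.cast_pow]

/-- The product of the minimal polynomials is separable. -/
theorem separable_of_independent (hind : Independent W) :
    (∏ i, minpoly ℚ (W i).π).Separable := by
  classical
  refine Polynomial.separable_prod' (fun i _ i' _ hne => ?_)
    (fun i _ => (minpoly.irreducible (W i).integral.tower_top).separable)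
  by_contra hcop
  have hdvd : minpoly ℚ (W i).π ∣ minpoly ℚ (W i').π := by
    by_contra hnd
    exact hcop (((minpoly.irreducible (W i).integral.tower_top).coprime_iff_not_dvd).2 hnd)
  let φ : (W i).K →+* ℂ := Classical.arbitrary _
  have h1 : Polynomial.aeval (φ (W i).π) (minpoly ℚ (W i).π) = 0 := by
    have h2 : φ (W i).π ∈ (minpoly ℚ (W i).π).rootSet ℂ := by
      rw [← NumberField.Embeddings.range_eval_eq_rootSet_minpoly]
      exact ⟨φ, rfl⟩
    exact (Polynomial.mem_rootSet.1 h2).2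
  obtain ⟨q, hq⟩ := hdvd
  have h2 : φ (W i).π ∈ (minpoly ℚ (W i').π).rootSet ℂ := by
    rw [Polynomial.mem_rootSet]
    refine ⟨minpoly.ne_zero (W i').integral.tower_top, ?_⟩
    rw [hq, map_mul, h1, zero_mul]
  rw [← NumberField.Embeddings.range_eval_eq_rootSet_minpoly] at h2
  obtain ⟨φ', hφ'⟩ := h2
  obtain ⟨σ, h3, h4⟩ := hind i
  have h5 := RingHom.congr_fun (h3 φ) (W i).π
  have h6 := RingHom.congr_fun (h4 i' (Ne.symm hne) φ') (W i').π
  simp only [RingHom.comp_apply] at h5 h6 hφ'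
  rw [hφ'] at h6
  rw [h6] at h5
  -- `π` is real
  have h7 : φ = ComplexEmbedding.conjugate φ :=
    Pool.Agent.H204R3.SP.emb_inj (W i).gen h5
  apply cbar_ne φ
  ext x
  rw [cbar_apply, IsCMField.complexEmbedding_complexConj]
  exact (RingHom.congr_fun h7 x).symm

end

end Pool.Agent.TH776.FM
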