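import Pool.Agent.TH776.FM.Main
import Pool.Agent.W527.FrobMild

/-!
# One Frobenius element with few slopes, or differences of slopes, prime to `r`
-/

set_option linter.unusedSectionVars false
set_option linter.unusedVariables false

namespace Pool.Agent.TH776.FM

open NumberField Module Pool.Agent.H204R3.CM Pool.Agent.H977R3.WN Pool.Agent.H485R3.Exact
  Pool.Agent.H204R3.GP Pool.Agent.H204R3.SP IntermediateField Pool.Agent.TH776.FS
  Pool.Agent.W527.TateRing Pool.Agent.W527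

noncomputable section

section free

variable {p m : ℕ} [hp : Fact p.Prime] {ι : Type} [Fintype ι] {W : ι → WeilNumber p m}

theorem free_of_few (hW : ∀ i, FewValues (W i) ∨ FewEvenValues (W i)) (hind : Independent W)
    (hno : ∀ i, ¬ HasWeil (W i)) {κ : ι → ℚ} (hκ : ∀ i, 0 < κ i)
    {u : ∀ i, ((W i).K →+* PadicAlgCl p) → ℤ}
    (hu : ∀ i, ∀ τ : (W i).K →+* PadicAlgCl p,
      2 * (- Real.logb p ‖τ (W i).π‖) - m = (κ i : ℝ) * u i τ)
    {L : Type} [Field L] [NumberField L] [IsGalois ℚ L] (j : L →+* ℂ)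
    (h : ∀ i, ∀ ψ : (W i).K →+* ℂ, ∃ φ : (W i).K →+* L, j.comp φ = ψ)
    (jp : L →+* PadicAlgCl p) :
    Free (F := fun i => (W i).K) (L := L) (fun i φ => u i (jp.comp φ)) := by
  obtain ⟨κc, hκc⟩ := exists_lift j (starRingAut : ℂ ≃+* ℂ)
  have hκc' : ∀ x, starRingEnd ℂ (j x) = j (κc x) := hκc
  have hκc'' : ∀ i, ∀ φ : (W i).K →+* L, κc • φ = cbar φ := by
    intro i φ
    apply Pool.Agent.W527.comp_injective j
    change j.comp (κc • φ) = j.comp (cbar φ)
    rw [comp_cbar]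
    exact RingHom.ext fun x => (hκc' (φ x)).symm
  have hindL : IndepL L (fun i => (W i).K) := by
    intro i
    obtain ⟨σ, h1, h2⟩ := hind i
    obtain ⟨g, hg⟩ := exists_lift j σ
    refine ⟨g, fun φ => ?_, fun i' hi' φ => ?_⟩
    · apply Pool.Agent.W527.comp_injective j
      change j.comp (g • φ) = j.comp (cbar φ)
      rw [comp_cbar, ← h1 (j.comp φ), lifts_comp j hg]
    · apply Pool.Agent.W527.comp_injective j
      change j.comp (g • φ) = j.comp φ
      rw [← lifts_comp j hg, h2 i' hi']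
  have hodd : ∀ i, ∀ φ : (W i).K →+* L, u i (jp.comp (cbar φ)) = - u i (jp.comp φ) :=
    fun i φ => anti_of_slopes' (W i).weil (hκ i).ne' (hu i) (jp.comp φ)
  intro c hc hrel i φ
  by_contra hne
  have h1 := split_rel (w := fun i φ => u i (jp.comp φ)) (fun i φ => hodd i φ) hindL hc hrel i
  have hκr : ((κ i : ℝ))⁻¹ ≠ 0 := inv_ne_zero (by exact_mod_cast (hκ i).ne')
  refine hno i (hasWeil_of_rel (hW i) (h i) jp (hκc'' i) hκr (fun φ => ?_) (fun φ => hodd i φ)
    ⟨c i, h1, φ, hne⟩)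
  unfold dev
  rw [hu, ← mul_assoc, inv_mul_cancel₀ (by exact_mod_cast (hκ i).ne'), one_mul]

end free

theorem mul_conj {p a : ℕ} (W : WeilNumber p a) :
    W.π * IsCMField.complexConj W.K W.π = (p : W.K) ^ a := by
  let φ : W.K →+* ℂ := Classical.arbitrary _
  apply φ.injective
  rw [map_mul, IsCMField.complexEmbedding_complexConj, map_pow, map_natCast, Complex.mul_conj,
    Complex.normSq_eq_norm_sq, W.weil φ]
  push_cast
  rfl

/-- The final form, for alternating forms on the powers. -/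
theorem tate_of_few {k : Type} [Field k] [CharZero k] {V : Type} [AddCommGroup V]
    [Module k V] [FiniteDimensional k V]
    {p : ℕ} [Fact p.Prime] {a : ℕ} (ha : 0 < a)
    {ι : Type} [Fintype ι] {W : ι → WeilNumber p a}
    (hW : ∀ i, FewValues (W i) ∨ FewEvenValues (W i)) (hind : Independent W)
    (hno : ∀ i, ¬ HasWeil (W i))
    {Γ : Type} [Group Γ] (ρ : Representation k Γ V) (χ : Γ →* k)
    (ω : V →ₗ[k] V →ₗ[k] k) (halt : ∀ v, ω v v = 0) (hnd : ∀ u, (∀ v, ω v u = 0) → u = 0)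
    (hωρ : ∀ s u v, ω (ρ s u) (ρ s v) = χ s * ω u v)
    (hss : FiniteIndexSemisimple ρ)
    (γ : Γ) (hχ : χ γ = (p : k) ^ a)
    (hγ : (ρ γ).charpoly = ∏ i, (minpoly ℚ (W i).π).map (algebraMap ℚ k)) :
    TateGeneratedInDegreeTwo ρ χ := by
  intro n m f hf
  obtain ⟨Δ, hΔ, hf⟩ := hf
  have hss' : ∀ Δ : Subgroup Γ, Δ.FiniteIndex → SemiUnder (ρ '' (Δ : Set Γ)) := by
    intro Δ hΔ U hU
    obtain ⟨U', h1, h2⟩ := hss Δ hΔ U (fun s hs u hu => hU _ ⟨s, hs, rfl⟩ u hu)
    refine ⟨U', ?_, h2⟩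
    rintro _ ⟨s, hs, rfl⟩ u hu
    exact h1 s hs u hu
  have hπ : ∀ i, (W i).π ≠ 0 := fun i => ne_zero_of_weil (p := p) (m := a) (W i).weil
  choose D u hD hslopes hu using fun i => exists_hasSlopes (p := p) ha (hπ i)
  have h1 := altG_of_tate_mem ρ χ (n := n) (m := m) (fun φ hφ => tate_of_free ha
    (F := fun i => (W i).K) (π := fun i => (W i).π) (fun i => (W i).gen) (fun i => mul_conj (W i))
    (N := fun i => a * D i) (fun i => Nat.mul_pos ha (hD i)) (u := u) hslopes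
    (fun L _ _ j h jp => free_of_few hW hind hno
      (κ := fun i => ((D i : ℚ))⁻¹) (fun i => by
        have := hD i
        positivity) hu j h jp) ρ χ ω halt hnd hωρ hss' γ hχ hγ φ hφ) f Δ hΔ hf
  refine Submodule.span_mono ?_ h1
  rintro g ⟨B, hB, hg⟩
  refine ⟨B, fun l => ?_, hg⟩
  obtain ⟨Δ', hΔ', h2⟩ := hB l
  refine ⟨Δ', hΔ', fun s hs v => ?_⟩
  rw [pow_one]
  exact h2 s hs v

end

end Pool.Agent.TH776.FM
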